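import Pool.Agent.H64.Mix.NoExt

/-!
A topologically mixing homeomorphism of a compact Hausdorff space with the shadowing property which
is not a factor of any compact zero-dimensional Hausdorff system with the shadowing property.

**The example.** Let `E` be the compact space and `pr : E → 2^ℕ` the open continuous surjection of
`Pool/Agent/H74/Shadow/Space.lean`. `X` is the set of the two-sided sequences `x` of letters of
`E ⊕ {0, 1}` such that, whenever `x_p = e ∈ E` and `x_(p+1), …, x_(p+q) ∈ {0, 1}`, these digits
are the first `q` digits of `pr e`; `f` is the shift.

* Shadowing: take the letters of a pseudo-orbit and replace each letter `e ∈ E` by a letter `e'` near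
  `e` with `pr e'` the string of digits which follows; this is possible as `pr` is uniformly open.
* Mixing: join the left part of one sequence and the right part of another one by letters of `E`.
* No extension: for a clopen set `C` of a zero-dimensional system `Y` with shadowing and a factor map
  onto `X`, the set of the digit strings `x_1 x_2 x_3 …` of the images of the points of `C` is the set of
  the labels of the infinite walks in a finite graph. There are only countably many such sets, and
  `E` was made by diagonalisation so that the sets `{pr e | e ∈ π(C'), …}` for the clopen sets `C'`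
  between two closed sets are different from all of them.
-/

namespace Pool.Agent.Results.MP_377827_an.MixingHomeomorphism

open Pool.Agent.H74.Shadow Pool.Agent.H64.Mix

universe u

/-- There is a homeomorphism `f` of a compact Hausdorff space `X` which is topologically mixing and has
the shadowing property, such that `(X, f)` is not a factor of any compact zero-dimensional
Hausdorff system `(Y, g)` with the shadowing property. -/
theorem result : ∃ (X : Type) (_ : UniformSpace X) (f : X ≃ₜ X),
    CompactSpace X ∧ T2Space X ∧ Shadowing (f : X → X) ∧
    (∀ U V : Set X, IsOpen U → IsOpen V → U.Nonempty → V.Nonempty →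
      ∃ N : ℕ, ∀ n : ℕ, N ≤ n → ∃ x ∈ U, (f : X → X)^[n] x ∈ V) ∧
    ¬ ∃ (Y : Type u) (_ : UniformSpace Y) (g : Y → Y) (π : Y → X),
      CompactSpace Y ∧ T2Space Y ∧ ZeroDimensional Y ∧ Continuous g ∧ Shadowing g ∧
      Continuous π ∧ Function.Surjective π ∧ ∀ y, π (g y) = f (π y) := by
  obtain ⟨D, hD⟩ := exists_kill
  refine ⟨XSp (pr D), inferInstance, sh (pr D), compactSpace_XSp (continuous_pr D), inferInstance,
    shadowing_sh (continuous_pr D) (isOpenMap_pr D),
    fun U V hU hV hUn hVn => mixing_sh (pr_surjective D) hU hV hUn hVn, ?_⟩
  rintro ⟨Y, _, g, π, _, _, hz, -, hsh, hπ, hsur, hcomm⟩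
  exact no_ext D hD hz g hsh π hπ hsur hcomm

end Pool.Agent.Results.MP_377827_an.MixingHomeomorphism
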